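import Mathlib

set_option autoImplicit false

namespace Pool.Agent.H.MP_25f4f2_al

open Matrix Polynomial

def M : Matrix (Fin 5) (Fin 5) ℤ :=
  !![1000000000000, 980000000000, 980000000000, 980000000000, 980000000000;
    10000000000, 10000000000, 9799999990, 9799999990, 9799999990;
    10000000000, 1000000, 10000000000, 9799999990, 9799999990;
    10000000000, 1000, 1000000, 10000000000, 9799999990;
    10000000000, 1, 1000, 1000000, 10000000000]

noncomputable def A : Matrix (Fin 5) (Fin 5) ℂ := M.map (Int.cast : ℤ → ℂ)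

lemma le_five {k : ℕ} {α : Fin k → Fin 5} (h : StrictMono α) : k ≤ 5 := by
  simpa using Fintype.card_le_of_injective α h.injective

def L0 : List (Fin 0 → Fin 5) :=
  [![]]

lemma mem0 : ∀ α : Fin 0 → Fin 5, StrictMono α → α ∈ L0 := by decide +kernel

def L1 : List (Fin 1 → Fin 5) :=
  [![0], ![1], ![2], ![3], ![4]]

lemma mem1 : ∀ α : Fin 1 → Fin 5, StrictMono α → α ∈ L1 := by decide +kernel

def L2 : List (Fin 2 → Fin 5) :=
  [![0, 1], ![0, 2], ![0, 3], ![0, 4], ![1, 2], ![1, 3], ![1, 4], ![2, 3], ![2, 4], ![3, 4]]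

lemma mem2 : ∀ α : Fin 2 → Fin 5, StrictMono α → α ∈ L2 := by decide +kernel

def L3 : List (Fin 3 → Fin 5) :=
  [![0, 1, 2], ![0, 1, 3], ![0, 1, 4], ![0, 2, 3], ![0, 2, 4], ![0, 3, 4], ![1, 2, 3], ![1, 2, 4], ![1, 3, 4], ![2, 3, 4]]

lemma mem3 : ∀ α : Fin 3 → Fin 5, StrictMono α → α ∈ L3 := by decide +kernel

def L4 : List (Fin 4 → Fin 5) :=
  [![0, 1, 2, 3], ![0, 1, 2, 4], ![0, 1, 3, 4], ![0, 2, 3, 4], ![1, 2, 3, 4]]

lemma mem4 : ∀ α : Fin 4 → Fin 5, StrictMono α → α ∈ L4 := by decide +kernel

def L5 : List (Fin 5 → Fin 5) :=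
  [![0, 1, 2, 3, 4]]

lemma mem5 : ∀ α : Fin 5 → Fin 5, StrictMono α → α ∈ L5 := by decide +kernel

lemma posZ (k : ℕ) (α : Fin k → Fin 5) (h : StrictMono α) : 0 < (M.submatrix α α).det := by
  have hk := le_five h
  interval_cases k
  · exact (by decide +kernel : ∀ α ∈ L0, 0 < (M.submatrix α α).det) α (mem0 α h)
  · exact (by decide +kernel : ∀ α ∈ L1, 0 < (M.submatrix α α).det) α (mem1 α h)
  · exact (by decide +kernel : ∀ α ∈ L2, 0 < (M.submatrix α α).det) α (mem2 α h)
  · exact (by decide +kernel : ∀ α ∈ L3, 0 < (M.submatrix α α).det) α (mem3 α h)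
  · exact (by decide +kernel : ∀ α ∈ L4, 0 < (M.submatrix α α).det) α (mem4 α h)
  · exact (by decide +kernel : ∀ α ∈ L5, 0 < (M.submatrix α α).det) α (mem5 α h)

lemma signZ (k : ℕ) (α β : Fin k → Fin 5) (h : StrictMono α) (h' : StrictMono β)
    (hc : (Finset.univ.image α ∩ Finset.univ.image β).card + 1 = k) :
    0 < (M.submatrix α β).det * (M.submatrix β α).det := by
  have hk := le_five h
  interval_cases k
  · exact (by decide +kernel : ∀ α ∈ L0, ∀ β ∈ L0,
      (Finset.univ.image α ∩ Finset.univ.image β).card + 1 = 0 →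
      0 < (M.submatrix α β).det * (M.submatrix β α).det) α (mem0 α h) β (mem0 β h') hc
  · exact (by decide +kernel : ∀ α ∈ L1, ∀ β ∈ L1,
      (Finset.univ.image α ∩ Finset.univ.image β).card + 1 = 1 →
      0 < (M.submatrix α β).det * (M.submatrix β α).det) α (mem1 α h) β (mem1 β h') hc
  · exact (by decide +kernel : ∀ α ∈ L2, ∀ β ∈ L2,
      (Finset.univ.image α ∩ Finset.univ.image β).card + 1 = 2 →
      0 < (M.submatrix α β).det * (M.submatrix β α).det) α (mem2 α h) β (mem2 β h') hc
  · exact (by decide +kernel : ∀ α ∈ L3, ∀ β ∈ L3,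
      (Finset.univ.image α ∩ Finset.univ.image β).card + 1 = 3 →
      0 < (M.submatrix α β).det * (M.submatrix β α).det) α (mem3 α h) β (mem3 β h') hc
  · exact (by decide +kernel : ∀ α ∈ L4, ∀ β ∈ L4,
      (Finset.univ.image α ∩ Finset.univ.image β).card + 1 = 4 →
      0 < (M.submatrix α β).det * (M.submatrix β α).det) α (mem4 α h) β (mem4 β h') hc
  · exact (by decide +kernel : ∀ α ∈ L5, ∀ β ∈ L5,
      (Finset.univ.image α ∩ Finset.univ.image β).card + 1 = 5 →
      0 < (M.submatrix α β).det * (M.submatrix β α).det) α (mem5 α h) β (mem5 β h') hc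

lemma cast_minor {k : ℕ} (α β : Fin k → Fin 5) :
    (A.submatrix α β).det = ((M.submatrix α β).det : ℤ) := by
  rw [Int.cast_det]
  rfl

def w (S : Finset (Fin 5)) : ℤ :=
  [0, 999999999998, 9999999998, 198058639, 9999999998, 198058639, 9901005049, 100676807, 9999999998, 198058639, 9996869503, 100673462, 9901005049, 100676807, 9862745945, 7184339, 9999999998, 198058639, 9999901004, 100673459, 9996869503, 100673462, 9900960910, 7183704, 9901005049, 100676807, 9900960910, 7183704, 9862745945, 7184339, 9844690287, 0].getD (∑ i ∈ S, 2 ^ i.val) 0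

def u (S : Finset (Fin 5)) : ℤ :=
  [0, 1000000000002, 10000000002, 198058642, 10000000002, 198058642, 9901005052, 100676810, 10000000002, 198058642, 9996869506, 100673465, 9901005052, 100676810, 9862745948, 7184342, 10000000002, 198058642, 9999901007, 100673462, 9996869506, 100673465, 9900960913, 7183707, 9901005052, 100676810, 9900960913, 7183707, 9862745948, 7184342, 9844690290, 200000].getD (∑ i ∈ S, 2 ^ i.val) 0

lemma uw : ∀ S T : Finset (Fin 5), T ⊆ S → T.Nonempty → T = S ∨ u S ≤ w T := by decide +kernel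

def N {k : ℕ} (α : Fin k → Fin 5) (z : ℂ) : Matrix (Fin k) (Fin k) ℂ :=
  Matrix.of fun i j => (M (α i) (α j) : ℂ) - if i = j then z else 0

lemma spec_iff {k : ℕ} (α : Fin k → Fin 5) (z : ℂ) :
    z ∈ spectrum ℂ (A.submatrix α α) ↔ (N α z).det = 0 := by
  rw [spectrum.mem_iff, Matrix.isUnit_iff_isUnit_det, isUnit_iff_ne_zero, not_not]
  have e : algebraMap ℂ (Matrix (Fin k) (Fin k) ℂ) z - A.submatrix α α = -N α z := by
    ext i j
    simp only [Matrix.sub_apply, Matrix.submatrix_apply, Matrix.map_apply, A, Matrix.neg_apply,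
      Matrix.algebraMap_matrix_apply, N, Matrix.of_apply, Algebra.algebraMap_self, RingHom.id_apply,
      neg_sub]
  rw [e, Matrix.det_neg]
  simp

lemma box {k : ℕ} (α : Fin k → Fin 5) (c0 c1 c2 c3 c4 c5 a b : ℤ)
    (h : ∀ z : ℂ, (N α z).det = c0 - c1 * z + c2 * z ^ 2 - c3 * z ^ 3 + c4 * z ^ 4 - c5 * z ^ 5)
    (ha : w (Finset.univ.image α) = a) (hb : u (Finset.univ.image α) = b)
    (H : a ≤ b ∧ c0 - c1 * b + c2 * b ^ 2 - c3 * b ^ 3 + c4 * b ^ 4 - c5 * b ^ 5 ≤ 0 ∧
      0 < c0 - c1 * a + c2 * a ^ 2 - c3 * a ^ 3 + c4 * a ^ 4 - c5 * a ^ 5 ∧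
      0 ≤ c1 - 2 * c2 * a + 3 * c3 * a ^ 2 - 4 * c4 * a ^ 3 + 5 * c5 * a ^ 4 ∧
      0 ≤ c2 - 3 * c3 * a + 6 * c4 * a ^ 2 - 10 * c5 * a ^ 3 ∧
      0 ≤ c3 - 4 * c4 * a + 10 * c5 * a ^ 2 ∧ 0 ≤ c4 - 5 * c5 * a ∧ 0 ≤ c5) :
    ∃ x : ℝ, IsLeast {x : ℝ | (x : ℂ) ∈ spectrum ℂ (A.submatrix α α)} x ∧
      (w (Finset.univ.image α) : ℝ) ≤ x ∧ x ≤ u (Finset.univ.image α) := by
  rw [ha, hb]
  obtain ⟨h0, h1, h2, h3, h4, h5, h6, h7⟩ := H
  let f : ℝ → ℝ := fun x => c0 - c1 * x + c2 * x ^ 2 - c3 * x ^ 3 + c4 * x ^ 4 - c5 * x ^ 5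
  have hf : Continuous f := by fun_prop
  have e : {x : ℝ | (x : ℂ) ∈ spectrum ℂ (A.submatrix α α)} = {x | f x = 0} := by
    ext x
    simp only [Set.mem_ofPred_eq, spec_iff, h, f]
    exact_mod_cast Iff.rfl
  have low : ∀ x, f x = 0 → (a : ℝ) ≤ x := by
    intro x hx
    by_contra hc
    push Not at hc
    obtain ⟨t, ht, rfl⟩ : ∃ t : ℝ, 0 < t ∧ x = a - t := ⟨a - x, by linarith, by ring⟩
    have g2 : (0 : ℝ) < c0 - c1 * a + c2 * a ^ 2 - c3 * a ^ 3 + c4 * a ^ 4 - c5 * a ^ 5 := by
      exact_mod_cast h2
    have g3 : (0 : ℝ) ≤ c1 - 2 * c2 * a + 3 * c3 * a ^ 2 - 4 * c4 * a ^ 3 + 5 * c5 * a ^ 4 := by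
      exact_mod_cast h3
    have g4 : (0 : ℝ) ≤ c2 - 3 * c3 * a + 6 * c4 * a ^ 2 - 10 * c5 * a ^ 3 := by exact_mod_cast h4
    have g5 : (0 : ℝ) ≤ c3 - 4 * c4 * a + 10 * c5 * a ^ 2 := by exact_mod_cast h5
    have g6 : (0 : ℝ) ≤ c4 - 5 * c5 * a := by exact_mod_cast h6
    have g7 : (0 : ℝ) ≤ c5 := by exact_mod_cast h7
    have := mul_nonneg g3 ht.le
    have := mul_nonneg g4 (pow_pos ht 2).le
    have := mul_nonneg g5 (pow_pos ht 3).le
    have := mul_nonneg g6 (pow_pos ht 4).le
    have := mul_nonneg g7 (pow_pos ht 5).le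
    simp only [f] at hx
    linarith
  have hab : (a : ℝ) ≤ b := by exact_mod_cast h0
  obtain ⟨x, hx, hx0⟩ := intermediate_value_Icc' hab hf.continuousOn
    (show (0 : ℝ) ∈ Set.Icc (f b) (f a) from
      ⟨by simp only [f]; exact_mod_cast h1, by simp only [f]; exact_mod_cast h2.le⟩)
  have hl := IsClosed.isLeast_csInf (s := {x | f x = 0}) (isClosed_eq hf continuous_const)
    ⟨x, hx0⟩ ⟨a, low⟩
  rw [e]
  exact ⟨_, hl, low _ hl.1, (hl.2 hx0).trans hx.2⟩

lemma det4 (B : Matrix (Fin 4) (Fin 4) ℂ) : B.det =
    B 0 0 * B 1 1 * B 2 2 * B 3 3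
    - B 0 0 * B 1 1 * B 2 3 * B 3 2
    - B 0 0 * B 1 2 * B 2 1 * B 3 3
    + B 0 0 * B 1 2 * B 2 3 * B 3 1
    + B 0 0 * B 1 3 * B 2 1 * B 3 2
    - B 0 0 * B 1 3 * B 2 2 * B 3 1
    - B 0 1 * B 1 0 * B 2 2 * B 3 3
    + B 0 1 * B 1 0 * B 2 3 * B 3 2
    + B 0 1 * B 1 2 * B 2 0 * B 3 3
    - B 0 1 * B 1 2 * B 2 3 * B 3 0
    - B 0 1 * B 1 3 * B 2 0 * B 3 2
    + B 0 1 * B 1 3 * B 2 2 * B 3 0
    + B 0 2 * B 1 0 * B 2 1 * B 3 3
    - B 0 2 * B 1 0 * B 2 3 * B 3 1
    - B 0 2 * B 1 1 * B 2 0 * B 3 3
    + B 0 2 * B 1 1 * B 2 3 * B 3 0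
    + B 0 2 * B 1 3 * B 2 0 * B 3 1
    - B 0 2 * B 1 3 * B 2 1 * B 3 0
    - B 0 3 * B 1 0 * B 2 1 * B 3 2
    + B 0 3 * B 1 0 * B 2 2 * B 3 1
    + B 0 3 * B 1 1 * B 2 0 * B 3 2
    - B 0 3 * B 1 1 * B 2 2 * B 3 0
    - B 0 3 * B 1 2 * B 2 0 * B 3 1
    + B 0 3 * B 1 2 * B 2 1 * B 3 0 := by
  simp [Matrix.det_succ_row_zero, Fin.sum_univ_succ, Fin.succAbove]
  ring

lemma char5 (z : ℂ) : (N ![0, 1, 2, 3, 4] z).det = (1589799239731618402090040000001000000000000000 : ℤ) - (10029056176636905748163402298860000001000 : ℤ) * z + (4239411231726299997788000200200 : ℤ) * z ^ 2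
    - (1399970580390230020010 : ℤ) * z ^ 3 + (1040000000000 : ℤ) * z ^ 4 - (1 : ℤ) * z ^ 5 := by
  rw [Matrix.det_succ_row_zero]
  simp [Fin.sum_univ_succ, det4, Fin.succAbove, N, M]
  ring

lemma box1 (α : Fin 1 → Fin 5) (h : StrictMono α) :
    ∃ x : ℝ, IsLeast {x : ℝ | (x : ℂ) ∈ spectrum ℂ (A.submatrix α α)} x ∧
      (w (Finset.univ.image α) : ℝ) ≤ x ∧ x ≤ u (Finset.univ.image α) := by
  have := mem1 α h
  simp only [L1, List.mem_cons, List.not_mem_nil, or_false] at this
  rcases this with rfl | rfl | rfl | rfl | rfl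
  · exact box _ 1000000000000 1 0 0 0 0 999999999998 1000000000002
      (fun z => by rw [Matrix.det_unique]; simp [N, M]; try ring) (by decide +kernel) (by decide +kernel) (by decide +kernel)
  · exact box _ 10000000000 1 0 0 0 0 9999999998 10000000002
      (fun z => by rw [Matrix.det_unique]; simp [N, M]; try ring) (by decide +kernel) (by decide +kernel) (by decide +kernel)
  · exact box _ 10000000000 1 0 0 0 0 9999999998 10000000002
      (fun z => by rw [Matrix.det_unique]; simp [N, M]; try ring) (by decide +kernel) (by decide +kernel) (by decide +kernel)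
  · exact box _ 10000000000 1 0 0 0 0 9999999998 10000000002
      (fun z => by rw [Matrix.det_unique]; simp [N, M]; try ring) (by decide +kernel) (by decide +kernel) (by decide +kernel)
  · exact box _ 10000000000 1 0 0 0 0 9999999998 10000000002
      (fun z => by rw [Matrix.det_unique]; simp [N, M]; try ring) (by decide +kernel) (by decide +kernel) (by decide +kernel)

lemma box2 (α : Fin 2 → Fin 5) (h : StrictMono α) :
    ∃ x : ℝ, IsLeast {x : ℝ | (x : ℂ) ∈ spectrum ℂ (A.submatrix α α)} x ∧
      (w (Finset.univ.image α) : ℝ) ≤ x ∧ x ≤ u (Finset.univ.image α) := by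
  have := mem2 α h
  simp only [L2, List.mem_cons, List.not_mem_nil, or_false] at this
  rcases this with rfl | rfl | rfl | rfl | rfl | rfl | rfl | rfl | rfl | rfl
  · exact box _ 200000000000000000000 1010000000000 1 0 0 0 198058639 198058642
      (fun z => by rw [Matrix.det_fin_two]; simp [N, M]; try ring) (by decide +kernel) (by decide +kernel) (by decide +kernel)
  · exact box _ 200000000000000000000 1010000000000 1 0 0 0 198058639 198058642
      (fun z => by rw [Matrix.det_fin_two]; simp [N, M]; try ring) (by decide +kernel) (by decide +kernel) (by decide +kernel)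
  · exact box _ 200000000000000000000 1010000000000 1 0 0 0 198058639 198058642
      (fun z => by rw [Matrix.det_fin_two]; simp [N, M]; try ring) (by decide +kernel) (by decide +kernel) (by decide +kernel)
  · exact box _ 200000000000000000000 1010000000000 1 0 0 0 198058639 198058642
      (fun z => by rw [Matrix.det_fin_two]; simp [N, M]; try ring) (by decide +kernel) (by decide +kernel) (by decide +kernel)
  · exact box _ 99990200000010000000 20000000000 1 0 0 0 9901005049 9901005052
      (fun z => by rw [Matrix.det_fin_two]; simp [N, M]; try ring) (by decide +kernel) (by decide +kernel) (by decide +kernel)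
  · exact box _ 99999990200000010000 20000000000 1 0 0 0 9996869503 9996869506
      (fun z => by rw [Matrix.det_fin_two]; simp [N, M]; try ring) (by decide +kernel) (by decide +kernel) (by decide +kernel)
  · exact box _ 99999999990200000010 20000000000 1 0 0 0 9999901004 9999901007
      (fun z => by rw [Matrix.det_fin_two]; simp [N, M]; try ring) (by decide +kernel) (by decide +kernel) (by decide +kernel)
  · exact box _ 99990200000010000000 20000000000 1 0 0 0 9901005049 9901005052
      (fun z => by rw [Matrix.det_fin_two]; simp [N, M]; try ring) (by decide +kernel) (by decide +kernel) (by decide +kernel)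
  · exact box _ 99999990200000010000 20000000000 1 0 0 0 9996869503 9996869506
      (fun z => by rw [Matrix.det_fin_two]; simp [N, M]; try ring) (by decide +kernel) (by decide +kernel) (by decide +kernel)
  · exact box _ 99990200000010000000 20000000000 1 0 0 0 9901005049 9901005052
      (fun z => by rw [Matrix.det_fin_two]; simp [N, M]; try ring) (by decide +kernel) (by decide +kernel) (by decide +kernel)

lemma box3 (α : Fin 3 → Fin 5) (h : StrictMono α) :
    ∃ x : ℝ, IsLeast {x : ℝ | (x : ℂ) ∈ spectrum ℂ (A.submatrix α α)} x ∧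
      (w (Finset.univ.image α) : ℝ) ≤ x ∧ x ≤ u (Finset.univ.image α) := by
  have := mem3 α h
  simp only [L3, List.mem_cons, List.not_mem_nil, or_false] at this
  rcases this with rfl | rfl | rfl | rfl | rfl | rfl | rfl | rfl | rfl | rfl
  · exact box _ 39999902010000000000000000000 499990200000010000000 1020000000000 1 0 0 100676807 100676810
      (fun z => by rw [Matrix.det_fin_three]; simp [N, M]; try ring) (by decide +kernel) (by decide +kernel) (by decide +kernel)
  · exact box _ 39999902000010000000000000000 499999990200000010000 1020000000000 1 0 0 100673462 100673465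
      (fun z => by rw [Matrix.det_fin_three]; simp [N, M]; try ring) (by decide +kernel) (by decide +kernel) (by decide +kernel)
  · exact box _ 39999902000000010000000000000 499999999990200000010 1020000000000 1 0 0 100673459 100673462
      (fun z => by rw [Matrix.det_fin_three]; simp [N, M]; try ring) (by decide +kernel) (by decide +kernel) (by decide +kernel)
  · exact box _ 39999902010000000000000000000 499990200000010000000 1020000000000 1 0 0 100676807 100676810
      (fun z => by rw [Matrix.det_fin_three]; simp [N, M]; try ring) (by decide +kernel) (by decide +kernel) (by decide +kernel)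
  · exact box _ 39999902000010000000000000000 499999990200000010000 1020000000000 1 0 0 100673462 100673465
      (fun z => by rw [Matrix.det_fin_three]; simp [N, M]; try ring) (by decide +kernel) (by decide +kernel) (by decide +kernel)
  · exact box _ 39999902010000000000000000000 499990200000010000000 1020000000000 1 0 0 100676807 100676810
      (fun z => by rw [Matrix.det_fin_three]; simp [N, M]; try ring) (by decide +kernel) (by decide +kernel) (by decide +kernel)
  · exact box _ 999804007840199894000000100000 299980390200020010000 30000000000 1 0 0 9862745945 9862745948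
      (fun z => by rw [Matrix.det_fin_three]; simp [N, M]; try ring) (by decide +kernel) (by decide +kernel) (by decide +kernel)
  · exact box _ 999901902007940099894000000100 299990190190210010010 30000000000 1 0 0 9900960910 9900960913
      (fun z => by rw [Matrix.det_fin_three]; simp [N, M]; try ring) (by decide +kernel) (by decide +kernel) (by decide +kernel)
  · exact box _ 999901902007940099894000000100 299990190190210010010 30000000000 1 0 0 9900960910 9900960913
      (fun z => by rw [Matrix.det_fin_three]; simp [N, M]; try ring) (by decide +kernel) (by decide +kernel) (by decide +kernel)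
  · exact box _ 999804007840199894000000100000 299980390200020010000 30000000000 1 0 0 9862745945 9862745948
      (fun z => by rw [Matrix.det_fin_three]; simp [N, M]; try ring) (by decide +kernel) (by decide +kernel) (by decide +kernel)

lemma box4 (α : Fin 4 → Fin 5) (h : StrictMono α) :
    ∃ x : ℝ, IsLeast {x : ℝ | (x : ℂ) ∈ spectrum ℂ (A.submatrix α α)} x ∧
      (w (Finset.univ.image α) : ℝ) ≤ x ∧ x ≤ u (Finset.univ.image α) := by
  have := mem4 α h
  simp only [L4, List.mem_cons, List.not_mem_nil, or_false] at this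
  rcases this with rfl | rfl | rfl | rfl | rfl
  · exact box _ 7998980999991020000100000000000000000 1119803713860209894000000100000 899980390200020010000 1030000000000 1 0 7184339 7184342
      (fun z => by rw [det4]; simp [N, M]; try ring) (by decide +kernel) (by decide +kernel) (by decide +kernel)
  · exact box _ 7998980900099012000000100000000000000 1119901608017950109894000000100 899990190190210010010 1030000000000 1 0 7183704 7183707
      (fun z => by rw [det4]; simp [N, M]; try ring) (by decide +kernel) (by decide +kernel) (by decide +kernel)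
  · exact box _ 7998980900099012000000100000000000000 1119901608017950109894000000100 899990190190210010010 1030000000000 1 0 7183704 7183707
      (fun z => by rw [det4]; simp [N, M]; try ring) (by decide +kernel) (by decide +kernel) (by decide +kernel)
  · exact box _ 7998980999991020000100000000000000000 1119803713860209894000000100000 899980390200020010000 1030000000000 1 0 7184339 7184342
      (fun z => by rw [det4]; simp [N, M]; try ring) (by decide +kernel) (by decide +kernel) (by decide +kernel)
  · exact box _ 9997060252836725684163202098860000001000 3999411819696279987788000200200 599970580390230020010 40000000000 1 0 9844690287 9844690290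
      (fun z => by rw [det4]; simp [N, M]; try ring) (by decide +kernel) (by decide +kernel) (by decide +kernel)

lemma box5 (α : Fin 5 → Fin 5) (h : StrictMono α) :
    ∃ x : ℝ, IsLeast {x : ℝ | (x : ℂ) ∈ spectrum ℂ (A.submatrix α α)} x ∧
      (w (Finset.univ.image α) : ℝ) ≤ x ∧ x ≤ u (Finset.univ.image α) := by
  have := mem5 α h
  simp only [L5, List.mem_cons, List.not_mem_nil, or_false] at this
  rcases this with rfl
  · exact box _ 1589799239731618402090040000001000000000000000 10029056176636905748163402298860000001000 4239411231726299997788000200200 1399970580390230020010 1040000000000 1 0 200000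
      char5 (by decide +kernel) (by decide +kernel) (by decide +kernel)

lemma boxes {k : ℕ} (α : Fin (k + 1) → Fin 5) (h : StrictMono α) :
    ∃ x : ℝ, IsLeast {x : ℝ | (x : ℂ) ∈ spectrum ℂ (A.submatrix α α)} x ∧
      (w (Finset.univ.image α) : ℝ) ≤ x ∧ x ≤ u (Finset.univ.image α) := by
  have hk : k ≤ 4 := by have := le_five h; omega
  interval_cases k
  exacts [box1 α h, box2 α h, box3 α h, box4 α h, box5 α h]

lemma A_tau (k m : ℕ) (α : Fin (k + 1) → Fin 5) (β : Fin (m + 1) → Fin 5) (ha : StrictMono α)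
    (hb : StrictMono β) (h : Set.range β ⊆ Set.range α) :
    ∃ a b : ℝ, IsLeast {x : ℝ | (x : ℂ) ∈ spectrum ℂ (A.submatrix α α)} a ∧
      IsLeast {x : ℝ | (x : ℂ) ∈ spectrum ℂ (A.submatrix β β)} b ∧ a ≤ b := by
  obtain ⟨a, a1, -, a3⟩ := boxes α ha
  obtain ⟨b, b1, b2, -⟩ := boxes β hb
  have hs : Finset.univ.image β ⊆ Finset.univ.image α := by
    intro x hx
    obtain ⟨i, -, rfl⟩ := Finset.mem_image.mp hx
    obtain ⟨j, hj⟩ := h ⟨i, rfl⟩
    exact Finset.mem_image.mpr ⟨j, Finset.mem_univ _, hj⟩
  rcases uw _ _ hs ⟨β 0, Finset.mem_image_of_mem _ (Finset.mem_univ _)⟩ with e | e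
  · have hc := congrArg Finset.card e
    rw [Finset.card_image_of_injective _ ha.injective,
      Finset.card_image_of_injective _ hb.injective] at hc
    obtain rfl : m = k := by simpa using hc
    obtain rfl : β = α := by
      rw [← StrictMono.range_inj hb ha]
      simpa using congrArg (fun s : Finset (Fin 5) => (s : Set (Fin 5))) e
    exact ⟨a, a, a1, a1, le_rfl⟩
  · have : (u (Finset.univ.image α) : ℝ) ≤ w (Finset.univ.image β) := by exact_mod_cast e
    exact ⟨a, b, a1, b1, by linarith⟩

lemma A_sub : A.submatrix ![0, 1, 2, 3, 4] ![0, 1, 2, 3, 4] = A := by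
  ext i j
  fin_cases i <;> fin_cases j <;> rfl

lemma A_nonneg (x : ℝ) (hx : (x : ℂ) ∈ spectrum ℂ A) : 0 ≤ x := by
  obtain ⟨a, a1, a2, -⟩ := box5 ![0, 1, 2, 3, 4] (by decide)
  rw [A_sub] at a1
  rw [show w (Finset.univ.image ![0, 1, 2, 3, 4]) = 0 by decide +kernel] at a2
  exact le_trans (by simpa using a2) (a1.2 hx)

lemma A_pos (k : ℕ) (α : Fin k → Fin 5) (h : StrictMono α) :
    (A.submatrix α α).det.im = 0 ∧ 0 < (A.submatrix α α).det.re := by
  rw [cast_minor]
  exact ⟨Complex.intCast_im _, by rw [Complex.intCast_re]; exact_mod_cast posZ k α h⟩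

lemma A_sign (k : ℕ) (α β : Fin k → Fin 5) (h : StrictMono α) (h' : StrictMono β)
    (hc : (Finset.univ.image α ∩ Finset.univ.image β).card + 1 = k) :
    ((A.submatrix α β).det * (A.submatrix β α).det).im = 0 ∧
      0 < ((A.submatrix α β).det * (A.submatrix β α).det).re := by
  rw [cast_minor, cast_minor, ← Int.cast_mul]
  exact ⟨Complex.intCast_im _, by rw [Complex.intCast_re]; exact_mod_cast signZ k α β h h' hc⟩

lemma log_deriv (q : ℂ[X]) (hq : ∀ z ∈ q.roots, 0 < z.re) (y : ℂ) (hy : y.re = 0)
    (h0 : q.eval y ≠ 0) : (q.derivative.eval y / q.eval y).re ≤ 0 := by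
  rw [(IsAlgClosed.splits q).eval_derivative_div_eval_of_ne_zero h0]
  generalize q.roots = s at hq
  induction s using Multiset.induction_on with
  | empty => simp
  | cons z s ih =>
    rw [Multiset.map_cons, Multiset.sum_cons, Complex.add_re]
    have h1 := ih fun v hv => hq v (Multiset.mem_cons_of_mem hv)
    have h2 := hq z (Multiset.mem_cons_self _ _)
    have h3 : (1 / (y - z)).re ≤ 0 := by
      rw [one_div, Complex.inv_re, Complex.sub_re, hy]
      exact div_nonpos_of_nonpos_of_nonneg (by linarith) (Complex.normSq_nonneg _)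
    linarith

lemma A_unstable : ∃ z ∈ spectrum ℂ A, z.re ≤ 0 := by
  by_contra hc
  push Not at hc
  let q : ℂ[X] := C 1589799239731618402090040000001000000000000000 - C 10029056176636905748163402298860000001000 * X + C 4239411231726299997788000200200 * X ^ 2
    - C 1399970580390230020010 * X ^ 3 + C 1040000000000 * X ^ 4 - X ^ 5
  have e0 : q.eval (2243000000 * Complex.I) = ⟨4996816363291401740830769420783991200000000000000,
      -6753778515599916548726196787272980002243000000000⟩ := by
    simp only [q, eval_sub, eval_add, eval_mul, eval_C, eval_pow, eval_X]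
    apply Complex.ext <;> simp [pow_succ] <;> norm_num
  have e1 : q.derivative.eval (2243000000 * Complex.I) = ⟨10974348318666148307660469171139999999000,
      -27926115707595818209923031101902800000000⟩ := by
    simp only [q, derivative_sub, derivative_add, derivative_mul, derivative_C, derivative_X_pow,
      derivative_X, eval_sub, eval_add, eval_mul, eval_C, eval_pow, eval_X, eval_zero, eval_one]
    apply Complex.ext <;> simp [pow_succ] <;> norm_num
  have := log_deriv q (fun z hz => hc z (by
      have h1 := (mem_roots'.mp hz).2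
      rw [← A_sub, spec_iff, char5]
      simp only [q, IsRoot, eval_sub, eval_add, eval_mul, eval_C, eval_pow, eval_X] at h1
      push_cast
      linear_combination h1)) (2243000000 * Complex.I) (by simp)
    (by rw [e0]; simp [Complex.ext_iff])
  rw [e0, e1, Complex.div_re, Complex.normSq_mk] at this
  norm_num at this

end Pool.Agent.H.MP_25f4f2_al
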